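import Pool.Agent.J4H7.AF.Stm

set_option autoImplicit false

/-! Project AF, part CNT: the number of near-coincidences in one separated box. -/

namespace Pool.Agent.J4H55.AF

open Finset
open Pool.Agent.J4H7.WT (DD Nr DD_sub card_diam card_box)
open Pool.Agent.J4H7.AF

theorem Iv_card (P L : ℕ) : (Iv P L).card = L := by
  unfold Iv
  rw [Nat.card_Ico, ← Nat.sub_mul, Nat.add_sub_cancel_left, one_mul]

theorem BX_card {k : ℕ} (K P L : ℕ) (c : Fin k → ℕ) : (BX K P L c).card = L ^ k := by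
  unfold BX
  rw [Fintype.card_piFinset]
  simp_rw [Iv_card]
  simp

/-- counting by levels, any family of sets of the same size -/
theorem card_lev {k : ℕ} (M : ℕ) (I : Fin k → Finset ℕ) (hI : ∀ j, (I j).card = M) (S : Finset (Fin k → ℕ))
    (hS : S ⊆ Fintype.piFinset I) (a : ℕ) (hak : a < k) {B1 B2 : ℝ} (hB1 : 0 ≤ B1) (hB2 : 0 ≤ B2)
    (h1 : ∀ x ∈ S, ∀ y ∈ S, (∀ j : Fin k, (j : ℕ) < a → x j = y j) → ∀ j, |(x j : ℝ) - y j| ≤ B1)
    (h2 : ∀ x ∈ S, ∀ y ∈ S, (∀ j : Fin k, (j : ℕ) < a + 1 → x j = y j) → ∀ j, |(x j : ℝ) - y j| ≤ B2) :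
    (S.card : ℝ) ≤ (M : ℝ) ^ a * ((B1 + 1) * (B2 + 1) ^ k) := by
  classical
  set π : (Fin k → ℕ) → (Fin k → ℕ) := fun x j => if (j : ℕ) < a then x j else 0 with hπ
  have hfib : ∀ w ∈ S.image π, ((S.filter fun x => π x = w).card : ℝ) ≤ (B1 + 1) * (B2 + 1) ^ k := by
    intro w _
    set F := S.filter fun x => π x = w with hF
    have hF1 : ∀ x ∈ F, ∀ y ∈ F, ∀ j : Fin k, (j : ℕ) < a → x j = y j := by
      intro x hx y hy j hj
      have e1 := congrFun (Finset.mem_filter.1 hx).2 j
      have e2 := congrFun (Finset.mem_filter.1 hy).2 j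
      rw [hπ] at e1 e2
      simp only [if_pos hj] at e1 e2
      rw [e1, e2]
    set ρ : (Fin k → ℕ) → ℕ := fun x => x ⟨a, hak⟩ with hρ
    have him : ((F.image ρ).card : ℝ) ≤ B1 + 1 := by
      apply card_diam _ hB1
      intro p hp q hq
      obtain ⟨x, hx, rfl⟩ := Finset.mem_image.1 hp
      obtain ⟨y, hy, rfl⟩ := Finset.mem_image.1 hq
      exact h1 x (Finset.mem_filter.1 hx).1 y (Finset.mem_filter.1 hy).1 (hF1 x hx y hy) _
    have hfib2 : ∀ p ∈ F.image ρ, ((F.filter fun x => ρ x = p).card : ℝ) ≤ (B2 + 1) ^ k := by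
      intro p _
      apply card_box _ hB2
      intro x hx y hy
      obtain ⟨hx1, hx2⟩ := Finset.mem_filter.1 hx
      obtain ⟨hy1, hy2⟩ := Finset.mem_filter.1 hy
      apply h2 x (Finset.mem_filter.1 hx1).1 y (Finset.mem_filter.1 hy1).1
      intro j hj
      rcases Nat.lt_or_ge (j : ℕ) a with h | h
      · exact hF1 x hx1 y hy1 j h
      · have : j = ⟨a, hak⟩ := Fin.ext (by simp; omega)
        rw [this]
        rw [hρ] at hx2 hy2
        simp only at hx2 hy2
        rw [hx2, hy2]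
    have h3 := Finset.card_eq_sum_card_image ρ F
    calc (F.card : ℝ) = ∑ p ∈ F.image ρ, ((F.filter fun x => ρ x = p).card : ℝ) := by
          rw [h3]
          push_cast
          rfl
      _ ≤ ∑ _p ∈ F.image ρ, (B2 + 1) ^ k := Finset.sum_le_sum hfib2
      _ = (F.image ρ).card * (B2 + 1) ^ k := by simp
      _ ≤ (B1 + 1) * (B2 + 1) ^ k := mul_le_mul_of_nonneg_right him (by positivity)
  have him : ((S.image π).card : ℝ) ≤ (M : ℝ) ^ a := by
    have h3 : S.image π ⊆ Fintype.piFinset fun j : Fin k => if (j : ℕ) < a then I j else {0} := by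
      intro w hw
      obtain ⟨x, hx, rfl⟩ := Finset.mem_image.1 hw
      rw [Fintype.mem_piFinset]
      intro j
      rw [hπ]
      simp only
      split_ifs with h
      · exact Fintype.mem_piFinset.1 (hS hx) j
      · simp
    have h4 := Finset.card_le_card h3
    rw [Fintype.card_piFinset] at h4
    have h5 : ∏ j : Fin k, (if (j : ℕ) < a then I j else ({0} : Finset ℕ)).card = M ^ a := by
      have h6 : ∀ j : Fin k, (if (j : ℕ) < a then I j else ({0} : Finset ℕ)).card = if (j : ℕ) < a then M else 1 := by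
        intro j
        split_ifs
        · exact hI _
        · simp
      simp_rw [h6]
      rw [Fin.prod_univ_eq_prod_range (fun j => if j < a then M else 1) k, Finset.prod_ite, Finset.prod_const,
        Finset.prod_const_one, mul_one]
      congr 1
      have : (range k).filter (fun j => j < a) = range a := by
        ext j
        simp only [Finset.mem_filter, Finset.mem_range]
        omega
      rw [this, Finset.card_range]
    rw [h5] at h4
    exact_mod_cast h4
  have h3 := Finset.card_eq_sum_card_image π S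
  calc (S.card : ℝ) = ∑ w ∈ S.image π, ((S.filter fun x => π x = w).card : ℝ) := by
        rw [h3]
        push_cast
        rfl
    _ ≤ ∑ _w ∈ S.image π, (B1 + 1) * (B2 + 1) ^ k := Finset.sum_le_sum hfib
    _ = (S.image π).card * ((B1 + 1) * (B2 + 1) ^ k) := by simp
    _ ≤ _ := mul_le_mul_of_nonneg_right him (by positivity)

/-- the size of the level `a` -/
theorem lev_size {X L R : ℝ} (hX : 1 ≤ X) (hL : 1 ≤ L) (hR : 0 ≤ R) (t a : ℕ) :
    L ^ a * (R * X ^ (t - a) / (X * L) ^ a) ≤ R * X ^ t := by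
  have hX0 : 0 < X := by linarith
  have hL0 : 0 < L := by linarith
  have h1 : L ^ a * (R * X ^ (t - a) / (X * L) ^ a) = R * X ^ (t - a) / X ^ a := by
    rw [mul_pow]
    field_simp
  rw [h1]
  have h2 : X ^ (t - a) ≤ X ^ t := pow_le_pow_right₀ hX (Nat.sub_le t a)
  calc R * X ^ (t - a) / X ^ a ≤ R * X ^ (t - a) := div_le_self (by positivity) (one_le_pow₀ hX)
    _ ≤ R * X ^ t := mul_le_mul_of_nonneg_left h2 hR

theorem t_CNT (hC : S_CLOSE) : S_CNT := by
  classical
  intro t K hK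
  obtain ⟨C, hC1, H⟩ := hC t K hK
  refine ⟨(2 * C + 1) ^ (t + 2), one_le_pow₀ (by linarith), ?_⟩
  intro P L hL c hc R hR
  obtain ⟨X, hX⟩ : ∃ X : ℝ, X = (P : ℝ) + 1 := ⟨_, rfl⟩
  have hX1 : 1 ≤ X := by
    rw [hX]
    have : (0 : ℝ) ≤ P := Nat.cast_nonneg P
    linarith
  have hX0 : 0 < X := by linarith
  have hL1 : (1 : ℝ) ≤ L := by exact_mod_cast hL
  have hL0 : (0 : ℝ) < L := by linarith
  have hR0 : 0 ≤ R := by linarith
  rw [← hX]
  obtain ⟨b, hb⟩ : ∃ b : ℕ → ℝ, b = fun a => R * X ^ (t - a) / (X * L) ^ a := ⟨_, rfl⟩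
  have hb0 : 1 ≤ b 0 := by
    rw [hb]
    simp only [Nat.sub_zero, pow_zero, div_one]
    exact one_le_mul_of_one_le_of_one_le hR (one_le_pow₀ hX1)
  obtain ⟨a, hat, ha1, ha2⟩ : ∃ a ≤ t, 1 ≤ b a ∧ (a + 1 ≤ t → b (a + 1) ≤ 1) := by
    refine ⟨Nat.findGreatest (fun a => 1 ≤ b a) t, Nat.findGreatest_le t,
      Nat.findGreatest_spec (P := fun a => 1 ≤ b a) (Nat.zero_le t) hb0, fun h => ?_⟩
    have := Nat.findGreatest_is_greatest (P := fun a => 1 ≤ b a) (n := t) (Nat.lt_succ_self _) h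
    exact (not_le.1 this).le
  have hba : 0 ≤ b a := by linarith
  have hfib : ∀ y ∈ BX K P L c, (((BX K P L c).filter fun x => Nr (t + 1) R x y).card : ℝ) ≤
      (2 * C + 1) ^ (t + 2) * (R * X ^ t) := by
    intro y _
    obtain ⟨S, hS⟩ : ∃ S, S = (BX K P L c).filter fun x => Nr (t + 1) R x y := ⟨_, rfl⟩
    rw [← hS]
    have hmem : ∀ x ∈ S, x ∈ BX K P L c := by
      intro x hx
      rw [hS] at hx
      exact (Finset.mem_filter.1 hx).1
    have hSd : ∀ x ∈ S, ∀ x' ∈ S, ∀ i, 1 ≤ i → i ≤ t + 1 → |DD i x x'| ≤ 2 * R := by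
      intro x hx x' hx' i hi1 hi2
      rw [hS] at hx hx'
      rw [DD_sub i x x' y]
      have h1 := (Finset.mem_filter.1 hx).2 i hi1 hi2
      have h2 := (Finset.mem_filter.1 hx').2 i hi1 hi2
      refine (abs_sub _ _).trans ?_
      linarith
    have e0 : ∀ a, 2 * R * X ^ (t - a) / (X * L) ^ a = 2 * b a := by
      intro a
      rw [hb]
      ring
    have h3 := card_lev L (fun i => Iv (K * P + c i) L) (fun j => Iv_card _ _) S (fun x hx => hmem x hx) a (by omega)
      (B1 := C * (2 * b a)) (B2 := 2 * C) (by positivity) (by positivity) (fun x hx x' hx' hag j => by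
        have := H P L hL c hc x (hmem x hx) x' (hmem x' hx') a hat hag (2 * R) (hSd x hx x' hx') j
        rw [← hX, e0] at this
        exact this) (fun x hx x' hx' hag j => by
        rcases Nat.lt_or_ge t (a + 1) with h | h
        · have : x j = x' j := hag j (by omega)
          rw [this, sub_self, abs_zero]
          linarith
        · have := H P L hL c hc x (hmem x hx) x' (hmem x' hx') (a + 1) h hag (2 * R) (hSd x hx x' hx') j
          rw [← hX, e0] at this
          have h4 := ha2 h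
          calc _ ≤ C * (2 * b (a + 1)) := this
            _ ≤ C * (2 * 1) := mul_le_mul_of_nonneg_left (by linarith) (by linarith)
            _ = 2 * C := by ring)
    refine h3.trans ?_
    have h5 : (L : ℝ) ^ a * (C * (2 * b a) + 1) ≤ (2 * C + 1) * (R * X ^ t) := by
      have h6 : (L : ℝ) ^ a * b a ≤ R * X ^ t := by
        rw [hb]
        exact lev_size hX1 hL1 hR0 t a
      have h7 : C * (2 * b a) + 1 ≤ (2 * C + 1) * b a := by linarith
      calc (L : ℝ) ^ a * (C * (2 * b a) + 1) ≤ (L : ℝ) ^ a * ((2 * C + 1) * b a) := mul_le_mul_of_nonneg_left h7 (by positivity)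
        _ = (2 * C + 1) * ((L : ℝ) ^ a * b a) := by ring
        _ ≤ _ := mul_le_mul_of_nonneg_left h6 (by linarith)
    calc (L : ℝ) ^ a * ((C * (2 * b a) + 1) * (2 * C + 1) ^ (t + 1))
        = ((L : ℝ) ^ a * (C * (2 * b a) + 1)) * (2 * C + 1) ^ (t + 1) := by ring
      _ ≤ ((2 * C + 1) * (R * X ^ t)) * (2 * C + 1) ^ (t + 1) := mul_le_mul_of_nonneg_right h5 (by positivity)
      _ = _ := by ring
  have h1 : ((BX K P L c ×ˢ BX K P L c).filter fun p => Nr (t + 1) R p.1 p.2).card =
      ∑ y ∈ BX K P L c, ((BX K P L c).filter fun x => Nr (t + 1) R x y).card := by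
    rw [Finset.card_filter, Finset.sum_product_right]
    refine Finset.sum_congr rfl fun y _ => ?_
    rw [Finset.card_filter]
  have h8 : ((((BX K P L c ×ˢ BX K P L c).filter fun p => Nr (t + 1) R p.1 p.2).card : ℕ) : ℝ) ≤
      (2 * C + 1) ^ (t + 2) * (R * X ^ t * (L : ℝ) ^ (t + 1)) := by
    calc ((((BX K P L c ×ˢ BX K P L c).filter fun p => Nr (t + 1) R p.1 p.2).card : ℕ) : ℝ)
        = ∑ y ∈ BX K P L c, (((BX K P L c).filter fun x => Nr (t + 1) R x y).card : ℝ) := by
          rw [h1]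
          push_cast
          rfl
      _ ≤ ∑ _y ∈ BX K P L c, (2 * C + 1) ^ (t + 2) * (R * X ^ t) := Finset.sum_le_sum hfib
      _ = ((BX K P L c).card : ℝ) * ((2 * C + 1) ^ (t + 2) * (R * X ^ t)) := by simp
      _ = _ := by
        rw [BX_card]
        push_cast
        ring
  convert h8 using 3

end Pool.Agent.J4H55.AF
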